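import Pool.Agent.Helper70.SDim.SUB

/-!
# CHAIN: the chain rule
-/

noncomputable section

open MeasureTheory Filter Set Metric
open scoped Topology ENNReal NNReal RealInnerProductSpace ContDiff Gradient

namespace Helper70.SDim

open Helper19.SDim

variable {N : ℕ}

/-- Dominated convergence in `L^q`. -/
theorem tendsto_eLpNorm_of_dominated {Ω : Set (E N)} {p : ℝ} (hp : 1 ≤ p) {f : ℕ → E N → E N}
    {g : E N → E N} {c : ℝ} (hf : ∀ n, AEStronglyMeasurable (f n) (volume.restrict Ω))
    (hg : MemLp g (ENNReal.ofReal p) (volume.restrict Ω))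
    (hb : ∀ n x, ‖f n x‖ ≤ c * ‖g x‖)
    (hl : ∀ᵐ x ∂(volume.restrict Ω), Tendsto (fun n => f n x) atTop (𝓝 0)) :
    Tendsto (fun n => eLpNorm (f n) (ENNReal.ofReal p) (volume.restrict Ω)) atTop (𝓝 0) := by
  have hp0 : 0 < p := by linarith
  have hp1 : ENNReal.ofReal p ≠ 0 := by
    rw [Ne, ENNReal.ofReal_eq_zero, not_le]; exact hp0
  have hp2 : ENNReal.ofReal p ≠ ⊤ := ENNReal.ofReal_ne_top
  have hp3 : (ENNReal.ofReal p).toReal = p := ENNReal.toReal_ofReal hp0.le
  have key : Tendsto (fun n => ∫⁻ x, ‖f n x‖ₑ ^ p ∂(volume.restrict Ω)) atTop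
      (𝓝 (∫⁻ _, 0 ∂(volume.restrict Ω))) := by
    have hcg : MemLp (fun x => c • g x) (ENNReal.ofReal p) (volume.restrict Ω) := hg.const_smul c
    refine tendsto_lintegral_of_dominated_convergence' (fun x => ‖c • g x‖ₑ ^ p)
      (fun n => (hf n).enorm.pow_const p) (fun n => Eventually.of_forall fun x => ?_) ?_ ?_
    · refine ENNReal.rpow_le_rpow ?_ hp0.le
      rw [enorm_le_iff_norm_le, norm_smul]
      exact (hb n x).trans (mul_le_mul_of_nonneg_right (le_abs_self c) (norm_nonneg _))
    · have := hcg.2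
      rw [eLpNorm_eq_lintegral_rpow_enorm_toReal hp1 hp2, hp3] at this
      intro h
      rw [h] at this
      have h1p : 0 < 1 / p := by positivity
      rw [ENNReal.top_rpow_of_pos h1p] at this
      exact lt_irrefl _ this
    · filter_upwards [hl] with x hx
      have h1 : Tendsto (fun n => ‖f n x‖ₑ) atTop (𝓝 0) := by
        have := hx.enorm
        rwa [enorm_zero] at this
      have h2 := h1.ennrpow_const p
      rwa [ENNReal.zero_rpow_of_pos hp0] at h2
  rw [lintegral_zero] at key
  have h3 := key.ennrpow_const (1 / p)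
  rw [ENNReal.zero_rpow_of_pos (by positivity)] at h3
  refine h3.congr (fun n => ?_)
  rw [eLpNorm_eq_lintegral_rpow_enorm_toReal hp1 hp2, hp3]

theorem chain_thm : S_CHAIN := by
  intro N Ω p φ u G h L hp h1 hh h0 hL
  have hp' : (1 : ℝ≥0∞) ≤ ENNReal.ofReal p := one_le_ofReal hp
  have hp0 : 0 < p := by linarith
  have hL0 : 0 ≤ L := (abs_nonneg _).trans (hL 0)
  have hq0 : ENNReal.ofReal p ≠ 0 := by
    rw [Ne, ENNReal.ofReal_eq_zero, not_le]; exact hp0
  have hLip : ∀ s t, |h s - h t| ≤ L * |s - t| := by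
    intro s t
    have := Convex.norm_image_sub_le_of_norm_deriv_le (f := h) (s := Set.univ) (C := L)
      (x := t) (y := s) (fun x _ => (hh.differentiable one_ne_zero) x) (fun x _ => hL x)
      convex_univ (mem_univ _) (mem_univ _)
    simpa [Real.norm_eq_abs] using this
  have cd : Continuous (deriv h) := hh.continuous_deriv le_rfl
  have hmeas : ∀ n, AEStronglyMeasurable (φ n) (volume.restrict Ω) :=
    fun n => (h1.c1 n).1.continuous.aestronglyMeasurable
  have htm : TendstoInMeasure (volume.restrict Ω) φ atTop u :=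
    tendstoInMeasure_of_tendsto_eLpNorm hq0 hmeas h1.mu.1 h1.tu
  obtain ⟨k, hk, hae⟩ := htm.exists_seq_tendsto_ae
  have hLu : ∀ x, ‖h (u x)‖ ≤ L * ‖u x‖ := by
    intro x
    have := hLip (u x) 0
    rw [h0, sub_zero, sub_zero] at this
    exact this
  refine ⟨k, hk, fun n => ?_, ?_, ?_, ?_, ?_⟩
  · have hs : tsupport (fun x => h (φ (k n) x)) ⊆ tsupport (φ (k n)) :=
      tsupport_comp_subset h0 (φ (k n))
    refine ⟨hh.comp (h1.c1 (k n)).1, ?_, hs.trans (h1.c1 (k n)).2.2⟩
    exact IsCompact.of_isClosed_subset (h1.c1 (k n)).2.1.isCompact (isClosed_tsupport _) hs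
  · refine ⟨hh.continuous.comp_aestronglyMeasurable h1.mu.1, ?_⟩
    refine (eLpNorm_le_mul_eLpNorm_of_ae_le_mul (g := u) (c := L)
      (Eventually.of_forall hLu) (ENNReal.ofReal p)).trans_lt ?_
    exact ENNReal.mul_lt_top ENNReal.ofReal_lt_top h1.mu.2
  · refine ⟨(cd.comp_aestronglyMeasurable h1.mu.1).smul h1.mG.1, ?_⟩
    refine (eLpNorm_le_mul_eLpNorm_of_ae_le_mul (g := G) (c := L)
      (Eventually.of_forall fun x => ?_) (ENNReal.ofReal p)).trans_lt ?_
    · rw [norm_smul]
      exact mul_le_mul_of_nonneg_right (hL _) (norm_nonneg _)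
    · exact ENNReal.mul_lt_top ENNReal.ofReal_lt_top h1.mG.2
  · have h2 := ENNReal.Tendsto.const_mul (h1.tu.comp hk.tendsto_atTop)
      (Or.inr (ENNReal.ofReal_ne_top (r := L)))
    rw [mul_zero] at h2
    refine tendsto_of_tendsto_of_tendsto_of_le_of_le tendsto_const_nhds h2 (fun _ => bot_le)
      (fun n => ?_)
    refine eLpNorm_le_mul_eLpNorm_of_ae_le_mul (Eventually.of_forall fun x => ?_) _
    exact hLip _ _
  · have h2 := ENNReal.Tendsto.const_mul (h1.tG.comp hk.tendsto_atTop)
      (Or.inr (ENNReal.ofReal_ne_top (r := L)))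
    rw [mul_zero] at h2
    have mdk : ∀ n, AEStronglyMeasurable (fun x => deriv h (φ (k n) x)) (volume.restrict Ω) :=
      fun n => cd.comp_aestronglyMeasurable (hmeas (k n))
    have mdu : AEStronglyMeasurable (fun x => deriv h (u x)) (volume.restrict Ω) :=
      cd.comp_aestronglyMeasurable h1.mu.1
    have m2 : ∀ n, AEStronglyMeasurable
        (fun x => (deriv h (φ (k n) x) - deriv h (u x)) • G x) (volume.restrict Ω) :=
      fun n => ((mdk n).sub mdu).smul h1.mG.1
    have h3 := tendsto_eLpNorm_of_dominated (c := L + L) hp m2 h1.mG (by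
      intro n x
      rw [norm_smul]
      refine mul_le_mul_of_nonneg_right ?_ (norm_nonneg _)
      exact (abs_sub _ _).trans (add_le_add (hL _) (hL _))) (by
      filter_upwards [hae] with x hx
      have h4 : Tendsto (fun n => deriv h (φ (k n) x) - deriv h (u x)) atTop
          (𝓝 (deriv h (u x) - deriv h (u x))) :=
        ((cd.tendsto _).comp hx).sub tendsto_const_nhds
      rw [sub_self] at h4
      have h5 := h4.smul_const (G x)
      rwa [zero_smul] at h5)
    have h6 := h2.add h3
    rw [add_zero] at h6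
    refine tendsto_of_tendsto_of_tendsto_of_le_of_le tendsto_const_nhds h6 (fun _ => bot_le)
      (fun n => ?_)
    have m1 : AEStronglyMeasurable
        (fun x => deriv h (φ (k n) x) • (∇ (φ (k n)) x - G x)) (volume.restrict Ω) :=
      (mdk n).smul ((continuous_gradient (h1.c1 (k n)).1).aestronglyMeasurable.sub h1.mG.1)
    have b1 : eLpNorm (fun x => deriv h (φ (k n) x) • (∇ (φ (k n)) x - G x)) (ENNReal.ofReal p)
        (volume.restrict Ω) ≤ ENNReal.ofReal L *
        eLpNorm (fun x => ∇ (φ (k n)) x - G x) (ENNReal.ofReal p) (volume.restrict Ω) := by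
      refine eLpNorm_le_mul_eLpNorm_of_ae_le_mul (Eventually.of_forall fun x => ?_) _
      rw [norm_smul]
      exact mul_le_mul_of_nonneg_right (hL _) (norm_nonneg _)
    have := eLpNorm_add_le m1 (m2 n) hp'
    refine le_trans (le_of_eq ?_) (this.trans (add_le_add b1 le_rfl))
    congr 1
    funext x
    simp only [Pi.add_apply]
    rw [gradient_comp' (h1.c1 (k n)).1 hh]
    rw [smul_sub, sub_smul]
    abel

end Helper70.SDim
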