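import Pool.Agent.Helper70.SDim.SUB

/-!
# DENS: density of `C_c^∞(Ω)` in `C_c^1(Ω)`
-/

noncomputable section

open MeasureTheory Filter Set Metric
open scoped Topology ENNReal NNReal RealInnerProductSpace ContDiff Gradient Convolution

namespace Helper70.SDim

open Helper19.SDim

variable {N : ℕ}

/-- Uniform convergence with supports in a fixed compact set implies `L^q` convergence. -/
theorem tendsto_eLpNorm_of_uniform {F : Type*} [NormedAddCommGroup F] {Ω : Set (E N)} {p : ℝ}
    (hp : 1 ≤ p) {f : ℕ → E N → F} {K : Set (E N)} (hK : IsCompact K)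
    (hs : ∀ n x, x ∉ K → f n x = 0)
    (hu : ∀ ε : ℝ, 0 < ε → ∀ᶠ n in atTop, ∀ x, ‖f n x‖ ≤ ε) :
    Tendsto (fun n => eLpNorm (f n) (ENNReal.ofReal p) (volume.restrict Ω)) atTop (𝓝 0) := by
  have hp0 : 0 < p := by linarith
  have hp3 : (ENNReal.ofReal p).toReal = p := ENNReal.toReal_ofReal hp0.le
  set M : ℝ≥0∞ := (volume K) ^ p⁻¹ with hM
  have hMfin : M ≠ ⊤ := ENNReal.rpow_ne_top_of_nonneg (by positivity) hK.measure_lt_top.ne
  have key : ∀ n (ε : ℝ), (∀ x, ‖f n x‖ ≤ ε) →
      eLpNorm (f n) (ENNReal.ofReal p) (volume.restrict Ω) ≤ M * ENNReal.ofReal ε := by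
    intro n ε h
    calc eLpNorm (f n) (ENNReal.ofReal p) (volume.restrict Ω)
        ≤ eLpNorm (f n) (ENNReal.ofReal p) volume :=
          eLpNorm_mono_measure _ Measure.restrict_le_self
      _ = eLpNorm (f n) (ENNReal.ofReal p) (volume.restrict K) := by
          rw [eLpNorm_restrict_eq_of_support_subset]
          intro x hx
          by_contra hxK
          exact hx (hs n x hxK)
      _ ≤ (volume.restrict K) univ ^ (ENNReal.ofReal p).toReal⁻¹ * ENNReal.ofReal ε :=
          eLpNorm_le_of_ae_bound (Eventually.of_forall h)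
      _ = M * ENNReal.ofReal ε := by
          rw [hp3, Measure.restrict_apply_univ]
  have hlim : Tendsto (fun t : ℝ => M * ENNReal.ofReal t) (𝓝[>] 0) (𝓝 0) := by
    have h1 : Tendsto (fun t : ℝ => ENNReal.ofReal t) (𝓝[>] 0) (𝓝 0) := by
      have := (ENNReal.continuous_ofReal.tendsto 0).mono_left
        (nhdsWithin_le_nhds (s := Ioi (0 : ℝ)))
      rwa [ENNReal.ofReal_zero] at this
    have := ENNReal.Tendsto.const_mul h1 (Or.inr hMfin)
    rwa [mul_zero] at this
  rw [ENNReal.tendsto_nhds_zero]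
  intro ε hε
  have h1 : ∀ᶠ t : ℝ in 𝓝[>] 0, M * ENNReal.ofReal t ≤ ε :=
    (ENNReal.tendsto_nhds_zero.1 hlim) ε hε
  obtain ⟨t, ht1, ht2⟩ := (h1.and self_mem_nhdsWithin).exists
  filter_upwards [hu t ht2] with n hn
  exact (key n t hn).trans ht1

theorem dens_thm : S_DENS := by
  intro N Ω φ p hΩ hp hφ
  obtain ⟨hc1, hcs, hsub⟩ := hφ
  obtain ⟨δ, hδ, hδΩ⟩ := hcs.isCompact.exists_cthickening_subset_open hΩ hsub
  set K : Set (E N) := cthickening δ (tsupport φ) with hK
  have hKc : IsCompact K := hcs.isCompact.cthickening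
  -- the bump functions
  have hpos : ∀ n : ℕ, 0 < δ / (n + 2) := fun n => by positivity
  let ρ : ℕ → ContDiffBump (0 : E N) := fun n =>
    { rIn := δ / (n + 2) / 2
      rOut := δ / (n + 2)
      rIn_pos := by have := hpos n; positivity
      rIn_lt_rOut := by have := hpos n; linarith }
  have hρout : ∀ n, (ρ n).rOut = δ / (n + 2) := fun n => rfl
  have hρlt : ∀ n, (ρ n).rOut ≤ δ := by
    intro n
    rw [hρout, div_le_iff₀ (by positivity)]
    have : (0 : ℝ) ≤ n := Nat.cast_nonneg n
    nlinarith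
  have hρ0 : Tendsto (fun n => (ρ n).rOut) atTop (𝓝 0) := by
    simp only [hρout]
    have h1 : Tendsto (fun n : ℕ => (n : ℝ) + 2) atTop atTop :=
      tendsto_atTop_add_const_right _ _ tendsto_natCast_atTop_atTop
    exact h1.const_div_atTop δ
  let ψ : ℕ → E N → ℝ := fun n =>
    ((ρ n).normed volume ⋆[ContinuousLinearMap.lsmul ℝ ℝ, volume] φ)
  have hloc : LocallyIntegrable φ (volume : Measure (E N)) := hc1.continuous.locallyIntegrable
  have hlocρ : ∀ n, LocallyIntegrable ((ρ n).normed volume) (volume : Measure (E N)) :=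
    fun n => (ρ n).continuous_normed.locallyIntegrable
  have hsupp : ∀ n, Function.support (ψ n) ⊆ K := by
    intro n
    refine (support_convolution_subset _).trans ?_
    rw [(ρ n).support_normed_eq]
    rintro x ⟨a, ha, b, hb, rfl⟩
    rw [mem_ball_zero_iff] at ha
    refine mem_cthickening_of_dist_le (a + b) b δ _ (subset_tsupport φ hb) ?_
    rw [dist_eq_norm, add_sub_cancel_right]
    exact ha.le.trans (hρlt n)
  have htsupp : ∀ n, tsupport (ψ n) ⊆ K := fun n =>
    closure_minimal (hsupp n) isClosed_cthickening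
  have hsmooth : ∀ n, ContDiff ℝ ∞ (ψ n) := fun n =>
    (ρ n).hasCompactSupport_normed.contDiff_convolution_left _ (ρ n).contDiff_normed hloc
  have hφ0 : ∀ x, x ∉ K → φ x = 0 := by
    intro x hx
    apply image_eq_zero_of_notMem_tsupport
    exact fun h => hx (self_subset_cthickening _ h)
  have hsf : HasCompactSupport (fderiv ℝ φ) := hcs.fderiv ℝ
  have hcf : Continuous (fderiv ℝ φ) := hc1.continuous_fderiv one_ne_zero
  -- gradient of the convolution
  have hfd : ∀ n x, fderiv ℝ (ψ n) x =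
      ((ρ n).normed volume ⋆[ContinuousLinearMap.lsmul ℝ ℝ, volume] (fderiv ℝ φ)) x := by
    intro n x
    have h1 := hcs.hasFDerivAt_convolution_right (ContinuousLinearMap.lsmul ℝ ℝ) (hlocρ n) hc1 x
    rw [h1.fderiv]
    simp only [convolution]
    refine integral_congr_ae (Eventually.of_forall fun t => ?_)
    ext y
    simp
  have hu1 : ∀ ε : ℝ, 0 < ε → ∀ᶠ n in atTop, ∀ x, ‖ψ n x - φ x‖ ≤ ε := by
    intro ε hε
    have huc := hcs.uniformContinuous_of_continuous hc1.continuous
    obtain ⟨η, hη, hη'⟩ := Metric.uniformContinuous_iff.1 huc ε hε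
    filter_upwards [hρ0.eventually (gt_mem_nhds hη)] with n hn x
    rw [← dist_eq_norm]
    refine (ρ n).dist_normed_convolution_le hc1.continuous.aestronglyMeasurable (fun y hy => ?_)
    exact (hη' (lt_trans hy hn)).le
  have hu2 : ∀ ε : ℝ, 0 < ε → ∀ᶠ n in atTop, ∀ x, ‖∇ (ψ n) x - ∇ φ x‖ ≤ ε := by
    intro ε hε
    have huc := hsf.uniformContinuous_of_continuous hcf
    obtain ⟨η, hη, hη'⟩ := Metric.uniformContinuous_iff.1 huc ε hε
    filter_upwards [hρ0.eventually (gt_mem_nhds hη)] with n hn x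
    rw [gradient_def', gradient_def', ← map_sub, LinearIsometryEquiv.norm_map, ← dist_eq_norm,
      hfd n x]
    refine (ρ n).dist_normed_convolution_le hcf.aestronglyMeasurable (fun y hy => ?_)
    exact (hη' (lt_trans hy hn)).le
  refine ⟨ψ, fun n => ⟨hsmooth n, ?_, (htsupp n).trans hδΩ⟩, ?_, ?_⟩
  · exact IsCompact.of_isClosed_subset hKc (isClosed_tsupport _) (htsupp n)
  · refine tendsto_eLpNorm_of_uniform hp hKc (fun n x hx => ?_) hu1
    have h1 : ψ n x = 0 := by
      by_contra h
      exact hx (hsupp n h)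
    rw [h1, hφ0 x hx, sub_zero]
  · refine tendsto_eLpNorm_of_uniform hp hKc (fun n x hx => ?_) hu2
    have h1 : fderiv ℝ (ψ n) x = 0 := by
      apply image_eq_zero_of_notMem_tsupport
      exact fun h => hx (htsupp n (tsupport_fderiv_subset ℝ h))
    have h2 : fderiv ℝ φ x = 0 := by
      apply image_eq_zero_of_notMem_tsupport
      exact fun h => hx (self_subset_cthickening _ (tsupport_fderiv_subset ℝ h))
    rw [gradient_def', gradient_def', h1, h2, sub_self]

end Helper70.SDim
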