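import Pool.Agent.Helper70.SDim.SUB

/-!
# EXT: the equation may be tested with all of `W_0^{1,p}`
-/

noncomputable section

open MeasureTheory Filter Set Metric
open scoped Topology ENNReal NNReal RealInnerProductSpace ContDiff Gradient

namespace Helper70.SDim

open Helper19.SDim

variable {N : ℕ}

/-- Continuity of a bounded bilinear pairing of `L^q` and `L^p`. -/
theorem pairing {W W' : Type*} [NormedAddCommGroup W] [NormedSpace ℝ W] [NormedAddCommGroup W']
    [NormedSpace ℝ W'] {μ : Measure (E N)} {p q : ℝ≥0∞} [ENNReal.HolderTriple q p 1]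
    (B : W →L[ℝ] W' →L[ℝ] ℝ) {f : E N → W} (hf : MemLp f q μ) {g : ℕ → E N → W'} {g0 : E N → W'}
    (hg0 : MemLp g0 p μ) (hg : ∀ n, AEStronglyMeasurable (g n) μ)
    (hl : Tendsto (fun n => eLpNorm (fun x => g n x - g0 x) p μ) atTop (𝓝 0)) :
    Integrable (fun x => B (f x) (g0 x)) μ ∧
    Tendsto (fun n => ∫ x, B (f x) (g n x) ∂μ) atTop (𝓝 (∫ x, B (f x) (g0 x) ∂μ)) := by
  have hb : ∀ (h : E N → W'), AEStronglyMeasurable h μ →
      eLpNorm (fun x => B (f x) (h x)) 1 μ ≤ ‖B‖₊ * eLpNorm f q μ * eLpNorm h p μ := by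
    intro h hh
    refine eLpNorm_le_eLpNorm_mul_eLpNorm_of_nnnorm hf.1 hh (fun x y => B x y) ‖B‖₊ ?_
    refine Eventually.of_forall fun x => ?_
    exact_mod_cast B.le_opNorm₂ (f x) (h x)
  have hm : ∀ (h : E N → W'), AEStronglyMeasurable h μ →
      AEStronglyMeasurable (fun x => B (f x) (h x)) μ := fun h hh =>
    B.aestronglyMeasurable_comp₂ hf.1 hh
  have hi0 : Integrable (fun x => B (f x) (g0 x)) μ := by
    rw [← memLp_one_iff_integrable]
    refine ⟨hm g0 hg0.1, (hb g0 hg0.1).trans_lt ?_⟩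
    exact ENNReal.mul_lt_top (ENNReal.mul_lt_top ENNReal.coe_lt_top hf.2) hg0.2
  have hfin : (‖B‖₊ : ℝ≥0∞) * eLpNorm f q μ ≠ ⊤ := (ENNReal.mul_lt_top ENNReal.coe_lt_top hf.2).ne
  refine ⟨hi0, ?_⟩
  have hlim : Tendsto (fun n => eLpNorm (fun x => B (f x) (g n x) - B (f x) (g0 x)) 1 μ) atTop
      (𝓝 0) := by
    have h0 := ENNReal.Tendsto.const_mul hl (Or.inr hfin)
    rw [mul_zero] at h0
    refine tendsto_of_tendsto_of_tendsto_of_le_of_le tendsto_const_nhds h0 (fun _ => bot_le)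
      (fun n => ?_)
    refine le_trans (le_of_eq ?_) (hb _ ((hg n).sub hg0.1))
    congr 1
    funext x
    rw [map_sub]
  refine tendsto_integral_of_L1' _ hi0.1 ?_ hlim
  have hev : ∀ᶠ n in atTop,
      eLpNorm (fun x => B (f x) (g n x) - B (f x) (g0 x)) 1 μ < 1 :=
    hlim.eventually (gt_mem_nhds zero_lt_one)
  filter_upwards [hev] with n hn
  have h1 : Integrable (fun x => B (f x) (g n x) - B (f x) (g0 x)) μ := by
    rw [← memLp_one_iff_integrable]
    exact ⟨(hm _ (hg n)).sub (hm _ hg0.1), hn.trans ENNReal.one_lt_top⟩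
  have h2 := h1.add hi0
  refine h2.congr (Eventually.of_forall fun x => ?_)
  simp

/-- The field `‖G‖^(p-2) G` is in `L^{p'}`. -/
theorem memLp_field {Ω : Set (E N)} {p : ℝ} (hp : 1 < p) {G : E N → E N}
    (hG : MemLp G (ENNReal.ofReal p) (volume.restrict Ω)) :
    MemLp (fun x => ‖G x‖ ^ (p - 2) • G x) (ENNReal.ofReal (p / (p - 1))) (volume.restrict Ω) := by
  have hp1 : 0 < p - 1 := by linarith
  have h1 := hG.norm_rpow_div (ENNReal.ofReal (p - 1))
  rw [ENNReal.toReal_ofReal hp1.le, ← ENNReal.ofReal_div_of_pos hp1] at h1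
  refine h1.congr_norm ?_ (Eventually.of_forall fun x => ?_)
  · exact (hG.1.norm.aemeasurable.pow_const (p - 2)).aestronglyMeasurable.smul hG.1
  · have h0 : 0 ≤ ‖G x‖ ^ (p - 2) := Real.rpow_nonneg (norm_nonneg _) _
    rw [norm_smul, Real.norm_of_nonneg h0,
      Real.norm_of_nonneg (Real.rpow_nonneg (norm_nonneg _) _)]
    rcases eq_or_lt_of_le (norm_nonneg (G x)) with h | h
    · rw [← h, mul_zero, Real.zero_rpow hp1.ne']
    · conv_rhs => rw [← Real.rpow_one ‖G x‖]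
      rw [Real.rpow_one, show p - 1 = (p - 2) + 1 by ring, Real.rpow_add h, Real.rpow_one]

theorem ext_thm (hDENS : S_DENS) : S_EXT := by
  intro N Ω p G F v V hΩ hp hG hF hE hv
  have hp1 : 0 < p - 1 := by linarith
  have hconj : p.HolderConjugate (p / (p - 1)) := Real.HolderConjugate.conjExponent hp
  have : ENNReal.HolderConjugate (ENNReal.ofReal (p / (p - 1))) (ENNReal.ofReal p) :=
    hconj.symm.ennrealOfReal
  have : ENNReal.HolderTriple (ENNReal.ofReal (p / (p - 1))) (ENNReal.ofReal p) 1 := this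
  set μ := (volume.restrict Ω : Measure (E N)) with hμ
  have hH := memLp_field hp hG
  have e1 : ∀ (W : E N → E N) x, ‖G x‖ ^ (p - 2) * ⟪G x, W x⟫ =
      (innerSL ℝ (E := E N)) (‖G x‖ ^ (p - 2) • G x) (W x) := by
    intro W x
    rw [innerSL_apply_apply, real_inner_smul_left]
  have e2 : ∀ (w : E N → ℝ) x, F x * w x = (ContinuousLinearMap.mul ℝ ℝ) (F x) (w x) := by
    intro w x; rfl
  -- the equation for `C_c^1` functions
  have hC1 : ∀ φ : E N → ℝ, C1c Ω φ →
      ∫ x in Ω, ‖G x‖ ^ (p - 2) * ⟪G x, ∇ φ x⟫ = ∫ x in Ω, F x * φ x := by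
    intro φ hφ
    obtain ⟨ψ, hψ, t1, t2⟩ := hDENS N Ω φ p hΩ hp.le hφ
    have mφ : MemLp φ (ENNReal.ofReal p) μ :=
      (hφ.1.continuous.memLp_of_hasCompactSupport hφ.2.1).restrict Ω
    have mφ' : MemLp (∇ φ) (ENNReal.ofReal p) μ := by
      refine ((continuous_gradient hφ.1).memLp_of_hasCompactSupport ?_).restrict Ω
      have := hφ.2.1.fderiv ℝ
      exact this.comp_left (g := (InnerProductSpace.toDual ℝ (E N)).symm) (map_zero _)
    have a1 := (pairing (innerSL ℝ (E := E N)) hH mφ'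
      (fun n => (continuous_gradient ((hψ n).1.of_le (by norm_cast))).aestronglyMeasurable) t2).2
    have a2 := (pairing (ContinuousLinearMap.mul ℝ ℝ) hF mφ
      (fun n => (hψ n).1.continuous.aestronglyMeasurable) t1).2
    simp only [← e1, ← e2] at a1 a2
    have a3 : (fun n => ∫ x, ‖G x‖ ^ (p - 2) * ⟪G x, ∇ (ψ n) x⟫ ∂μ) =
        fun n => ∫ x, F x * ψ n x ∂μ := by
      funext n
      exact hE (ψ n) (hψ n)
    rw [a3] at a1
    exact tendsto_nhds_unique a1 a2
  obtain ⟨φ, hφ⟩ := hv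
  have a1 := (pairing (innerSL ℝ (E := E N)) hH hφ.mG
      (fun n => (continuous_gradient (hφ.c1 n).1).aestronglyMeasurable) hφ.tG)
  have a2 := (pairing (ContinuousLinearMap.mul ℝ ℝ) hF hφ.mu
      (fun n => (hφ.c1 n).1.continuous.aestronglyMeasurable) hφ.tu)
  simp only [← e1, ← e2] at a1 a2
  refine ⟨a1.1, a2.1, ?_⟩
  have a3 : (fun n => ∫ x, ‖G x‖ ^ (p - 2) * ⟪G x, ∇ (φ n) x⟫ ∂μ) =
      fun n => ∫ x, F x * φ n x ∂μ := by
    funext n
    exact hC1 (φ n) (hφ.c1 n)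
  have a4 := a1.2
  rw [a3] at a4
  exact tendsto_nhds_unique a4 a2.2

end Helper70.SDim
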