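import Pool.Agent.Helper70.SDim.SUB

/-!
# PROD: products with bounded `C^1` functions with bounded gradient
-/

noncomputable section

open MeasureTheory Filter Set Metric
open scoped Topology ENNReal NNReal RealInnerProductSpace ContDiff Gradient

namespace Helper70.SDim

open Helper19.SDim

variable {N : ℕ}

theorem prod_thm : S_PROD := by
  intro N Ω p φ u G η L hp h1 hη hL hL'
  have hp' : (1 : ℝ≥0∞) ≤ ENNReal.ofReal p := one_le_ofReal hp
  have hL0 : 0 ≤ L := (abs_nonneg _).trans (hL 0)
  have cη : Continuous η := hη.continuous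
  have cGη : Continuous (∇ η) := continuous_gradient hη
  set q : ℝ≥0∞ := ENNReal.ofReal p with hq
  -- bounds
  have b1 : ∀ (f : E N → ℝ), eLpNorm (fun x => f x * η x) q (volume.restrict Ω) ≤
      ENNReal.ofReal L * eLpNorm f q (volume.restrict Ω) := by
    intro f
    refine eLpNorm_le_mul_eLpNorm_of_ae_le_mul (Eventually.of_forall fun x => ?_) q
    rw [norm_mul, mul_comm]
    exact mul_le_mul_of_nonneg_right (hL x) (norm_nonneg _)
  have b2 : ∀ (f : E N → E N), eLpNorm (fun x => η x • f x) q (volume.restrict Ω) ≤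
      ENNReal.ofReal L * eLpNorm f q (volume.restrict Ω) := by
    intro f
    refine eLpNorm_le_mul_eLpNorm_of_ae_le_mul (Eventually.of_forall fun x => ?_) q
    rw [norm_smul]
    exact mul_le_mul_of_nonneg_right (hL x) (norm_nonneg _)
  have b3 : ∀ (f : E N → ℝ), eLpNorm (fun x => f x • ∇ η x) q (volume.restrict Ω) ≤
      ENNReal.ofReal L * eLpNorm f q (volume.restrict Ω) := by
    intro f
    refine eLpNorm_le_mul_eLpNorm_of_ae_le_mul (Eventually.of_forall fun x => ?_) q
    rw [norm_smul, mul_comm]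
    exact mul_le_mul_of_nonneg_right (hL' x) (norm_nonneg _)
  have fin : ENNReal.ofReal L ≠ ⊤ := ENNReal.ofReal_ne_top
  refine ⟨fun n => ?_, ?_, ?_, ?_, ?_⟩
  · have hs : tsupport (fun x => φ n x * η x) ⊆ tsupport (φ n) := tsupport_mul_subset_left
    refine ⟨(h1.c1 n).1.mul hη, ?_, hs.trans (h1.c1 n).2.2⟩
    exact IsCompact.of_isClosed_subset (h1.c1 n).2.1.isCompact (isClosed_tsupport _) hs
  · refine ⟨h1.mu.1.mul cη.aestronglyMeasurable, ?_⟩
    exact (b1 u).trans_lt (ENNReal.mul_lt_top fin.lt_top h1.mu.2)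
  · refine MemLp.add ⟨cη.aestronglyMeasurable.smul h1.mG.1, ?_⟩
      ⟨h1.mu.1.smul cGη.aestronglyMeasurable, ?_⟩
    · exact (b2 G).trans_lt (ENNReal.mul_lt_top fin.lt_top h1.mG.2)
    · exact (b3 u).trans_lt (ENNReal.mul_lt_top fin.lt_top h1.mu.2)
  · have h0 := ENNReal.Tendsto.const_mul h1.tu (Or.inr fin)
    rw [mul_zero] at h0
    refine tendsto_of_tendsto_of_tendsto_of_le_of_le tendsto_const_nhds h0 (fun _ => bot_le)
      (fun n => ?_)
    refine le_trans (le_of_eq ?_) (b1 _)
    congr 1
    funext x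
    ring
  · have h0 := (ENNReal.Tendsto.const_mul h1.tG (Or.inr fin)).add
      (ENNReal.Tendsto.const_mul h1.tu (Or.inr fin))
    rw [mul_zero, add_zero] at h0
    refine tendsto_of_tendsto_of_tendsto_of_le_of_le tendsto_const_nhds h0 (fun _ => bot_le)
      (fun n => ?_)
    have m1 : AEStronglyMeasurable (fun x => η x • (∇ (φ n) x - G x)) (volume.restrict Ω) :=
      cη.aestronglyMeasurable.smul
        ((continuous_gradient (h1.c1 n).1).aestronglyMeasurable.sub h1.mG.1)
    have m2 : AEStronglyMeasurable (fun x => (φ n x - u x) • ∇ η x) (volume.restrict Ω) :=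
      ((h1.c1 n).1.continuous.aestronglyMeasurable.sub h1.mu.1).smul cGη.aestronglyMeasurable
    have := eLpNorm_add_le m1 m2 hp'
    refine le_trans (le_of_eq ?_) (this.trans (add_le_add (b2 _) (b3 _)))
    congr 1
    funext x
    simp only [Pi.add_apply]
    rw [gradient_mul' (h1.c1 n).1 hη]
    rw [smul_sub, sub_smul]
    abel

end Helper70.SDim
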