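import Pool.Agent.Helper70.SDim.SUB

/-!
# SOB: the Sobolev inequality
-/

noncomputable section

open MeasureTheory Filter Set Metric
open scoped Topology ENNReal NNReal RealInnerProductSpace ContDiff Gradient

namespace Helper70.SDim

open Helper19.SDim

variable {N : ℕ}

theorem sob_thm : S_SOB := by
  intro N p hN hp hp2
  have hp0 : 0 < p := by linarith
  have hNr : (2 : ℝ) ≤ N := by exact_mod_cast hN
  have hN0 : (0 : ℝ) < N := by linarith
  have hNp : 0 < (N : ℝ) - p := by linarith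
  have hst : 0 < pst N p := by
    unfold pst
    exact div_pos (mul_pos hN0 hp0) hNp
  -- exponents as nonnegative reals
  set P : ℝ≥0 := p.toNNReal with hP
  set Q : ℝ≥0 := (pst N p).toNNReal with hQ
  have hPr : (P : ℝ) = p := Real.coe_toNNReal _ hp0.le
  have hQr : (Q : ℝ) = pst N p := Real.coe_toNNReal _ hst.le
  have hPE : (P : ℝ≥0∞) = ENNReal.ofReal p := rfl
  have hP1 : 1 ≤ P := by
    rw [← NNReal.coe_le_coe, hPr]; exact_mod_cast hp.le
  have hfin : Module.finrank ℝ (E N) = N := finrank_euclideanSpace_fin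
  have hexp : (Q : ℝ)⁻¹ = (P : ℝ)⁻¹ - (Module.finrank ℝ (E N) : ℝ)⁻¹ := by
    rw [hQr, hPr, hfin]
    unfold pst
    field_simp
  set C0 : ℝ≥0 := SNormLESNormFDerivOfEqConst ℝ (volume : Measure (E N)) P with hC0
  have hP0 : (P : ℝ≥0∞) ≠ 0 := by
    rw [Ne, ENNReal.coe_eq_zero]
    intro h
    rw [h] at hP1
    exact absurd hP1 (by norm_num)
  have hQ0 : (Q : ℝ≥0∞) ≠ 0 := by
    rw [Ne, ENNReal.coe_eq_zero]
    intro h
    rw [h] at hQr
    simp only [NNReal.coe_zero] at hQr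
    linarith
  refine ⟨(C0 : ℝ) ^ p + 1, by positivity, ?_⟩
  rintro Ω v V - ⟨φ, hφ⟩
  set μ := (volume.restrict Ω : Measure (E N)) with hμ
  -- the inequality for `C_c^1` functions
  have hC1 : ∀ f : E N → ℝ, C1c Ω f → eLpNorm f Q μ ≤ C0 * eLpNorm (∇ f) P μ := by
    intro f hf
    have h1 := eLpNorm_le_eLpNorm_fderiv_of_eq (F := ℝ) (volume : Measure (E N)) hf.1 hf.2.1
      (p := P) (p' := Q) hP1 (by rw [hfin]; omega) hexp
    have h2 : eLpNorm (fderiv ℝ f) P volume = eLpNorm (∇ f) P volume := by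
      refine eLpNorm_congr_norm_ae (Eventually.of_forall fun x => ?_)
      rw [gradient_def', LinearIsometryEquiv.norm_map]
    have h3 : eLpNorm (∇ f) P μ = eLpNorm (∇ f) P volume := by
      refine eLpNorm_restrict_eq_of_support_subset ?_
      intro x hx
      by_contra hxΩ
      apply hx
      have h4 : fderiv ℝ f x = 0 := by
        apply image_eq_zero_of_notMem_tsupport
        exact fun h => hxΩ (hf.2.2 (tsupport_fderiv_subset ℝ h))
      rw [gradient_def', h4, map_zero]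
    rw [h3, ← h2]
    exact (eLpNorm_mono_measure _ Measure.restrict_le_self).trans h1
  have hmeas : ∀ n, AEStronglyMeasurable (φ n) μ :=
    fun n => (hφ.c1 n).1.continuous.aestronglyMeasurable
  have htm : TendstoInMeasure μ φ atTop v :=
    tendstoInMeasure_of_tendsto_eLpNorm (p := ENNReal.ofReal p) hP0 hmeas hφ.mu.1 hφ.tu
  obtain ⟨k, hk, hae⟩ := htm.exists_seq_tendsto_ae
  have hfatou := Lp.eLpNorm_lim_le_liminf_eLpNorm (p := (Q : ℝ≥0∞)) (fun n => hmeas (k n)) v hae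
  have hup : ∀ n, eLpNorm (φ (k n)) Q μ ≤
      C0 * (eLpNorm (fun x => ∇ (φ (k n)) x - V x) P μ + eLpNorm V P μ) := by
    intro n
    refine (hC1 _ (hφ.c1 (k n))).trans ?_
    gcongr
    have m1 : AEStronglyMeasurable (fun x => ∇ (φ (k n)) x - V x) μ :=
      (continuous_gradient (hφ.c1 (k n)).1).aestronglyMeasurable.sub hφ.mG.1
    have h5 := eLpNorm_add_le m1 hφ.mG.1 (p := (P : ℝ≥0∞)) (by exact_mod_cast hP1)
    refine le_trans (le_of_eq ?_) h5
    congr 1
    funext x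
    simp
  have hlim : Tendsto (fun n => (C0 : ℝ≥0∞) *
      (eLpNorm (fun x => ∇ (φ (k n)) x - V x) P μ + eLpNorm V P μ)) atTop
      (𝓝 (C0 * (0 + eLpNorm V P μ))) :=
    ENNReal.Tendsto.const_mul ((hφ.tG.comp hk.tendsto_atTop).add tendsto_const_nhds)
      (Or.inr ENNReal.coe_ne_top)
  have hmain : eLpNorm v Q μ ≤ C0 * eLpNorm V P μ := by
    refine hfatou.trans ((liminf_le_liminf (Eventually.of_forall hup)).trans ?_)
    rw [hlim.liminf_eq, zero_add]
  have hVm : MemLp V P μ := hφ.mG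
  have hvm : MemLp v Q μ :=
    ⟨hφ.mu.1, hmain.trans_lt (ENNReal.mul_lt_top ENNReal.coe_lt_top hVm.2)⟩
  have hIv : Integrable (fun x => |v x| ^ pst N p) μ := by
    have := hvm.integrable_norm_rpow hQ0 ENNReal.coe_ne_top
    rw [ENNReal.coe_toReal, hQr] at this
    exact this
  have hIV : Integrable (fun x => ‖V x‖ ^ p) μ := by
    have := hVm.integrable_norm_rpow hP0 ENNReal.coe_ne_top
    rw [ENNReal.coe_toReal, hPr] at this
    exact this
  refine ⟨hIv, hIV, ?_⟩
  have e1 := hvm.eLpNorm_eq_integral_rpow_norm hQ0 ENNReal.coe_ne_top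
  have e2 := hVm.eLpNorm_eq_integral_rpow_norm hP0 ENNReal.coe_ne_top
  rw [ENNReal.coe_toReal, hQr] at e1
  rw [ENNReal.coe_toReal, hPr] at e2
  rw [e1, e2] at hmain
  set A : ℝ := ∫ x, ‖v x‖ ^ pst N p ∂μ with hA
  set B : ℝ := ∫ x, ‖V x‖ ^ p ∂μ with hB
  have hA0 : 0 ≤ A := integral_nonneg fun x => Real.rpow_nonneg (norm_nonneg _) _
  have hB0 : 0 ≤ B := integral_nonneg fun x => Real.rpow_nonneg (norm_nonneg _) _
  have hreal : A ^ (pst N p)⁻¹ ≤ C0 * B ^ p⁻¹ := by
    have h6 : (C0 : ℝ≥0∞) = ENNReal.ofReal (C0 : ℝ) := by simp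
    rw [h6, ← ENNReal.ofReal_mul C0.coe_nonneg] at hmain
    exact (ENNReal.ofReal_le_ofReal_iff (mul_nonneg C0.coe_nonneg
      (Real.rpow_nonneg hB0 _))).1 hmain
  have h7 := Real.rpow_le_rpow (Real.rpow_nonneg hA0 _) hreal hp0.le
  rw [← Real.rpow_mul hA0, Real.mul_rpow C0.coe_nonneg (Real.rpow_nonneg hB0 _),
    ← Real.rpow_mul hB0, inv_mul_cancel₀ hp0.ne', Real.rpow_one] at h7
  have h8 : (pst N p)⁻¹ * p = p / pst N p := by field_simp
  rw [h8] at h7
  calc A ^ (p / pst N p) ≤ (C0 : ℝ) ^ p * B := h7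
    _ ≤ ((C0 : ℝ) ^ p + 1) * B := by nlinarith

end Helper70.SDim
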