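import Pool.Agent.Helper70.SDim.Basic

/-!
# SUB: differences of approximating sequences
-/

noncomputable section

open MeasureTheory Filter Set Metric
open scoped Topology ENNReal NNReal RealInnerProductSpace ContDiff Gradient

namespace Helper70.SDim

open Helper19.SDim

variable {N : ℕ}

theorem one_le_ofReal {p : ℝ} (hp : 1 ≤ p) : 1 ≤ ENNReal.ofReal p := by
  rw [← ENNReal.ofReal_one]; exact ENNReal.ofReal_le_ofReal hp

theorem sub_thm : S_SUB := by
  intro N Ω p φ ψ u v G V hp h1 h2
  have hp' : (1 : ℝ≥0∞) ≤ ENNReal.ofReal p := one_le_ofReal hp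
  refine ⟨fun n => ?_, h1.mu.sub h2.mu, h1.mG.sub h2.mG, ?_, ?_⟩
  · have hs : tsupport (fun x => φ n x - ψ n x) ⊆ tsupport (φ n) ∪ tsupport (ψ n) :=
      tsupport_binop_subset (fun a b : ℝ => a - b) (by simp) (φ n) (ψ n)
    refine ⟨(h1.c1 n).1.sub (h2.c1 n).1, ?_, hs.trans (union_subset (h1.c1 n).2.2 (h2.c1 n).2.2)⟩
    exact IsCompact.of_isClosed_subset ((h1.c1 n).2.1.isCompact.union (h2.c1 n).2.1.isCompact)
      (isClosed_tsupport _) hs
  · have h0 := h1.tu.add h2.tu
    rw [add_zero] at h0
    refine tendsto_of_tendsto_of_tendsto_of_le_of_le tendsto_const_nhds h0 (fun _ => bot_le)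
      (fun n => ?_)
    have m1 : AEStronglyMeasurable (fun x => φ n x - u x) (volume.restrict Ω) :=
      (h1.c1 n).1.continuous.aestronglyMeasurable.sub h1.mu.1
    have m2 : AEStronglyMeasurable (fun x => ψ n x - v x) (volume.restrict Ω) :=
      (h2.c1 n).1.continuous.aestronglyMeasurable.sub h2.mu.1
    have := eLpNorm_sub_le m1 m2 hp'
    refine le_trans (le_of_eq ?_) this
    congr 1
    funext x
    simp only [Pi.sub_apply]
    ring
  · have h0 := h1.tG.add h2.tG
    rw [add_zero] at h0
    refine tendsto_of_tendsto_of_tendsto_of_le_of_le tendsto_const_nhds h0 (fun _ => bot_le)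
      (fun n => ?_)
    have m1 : AEStronglyMeasurable (fun x => ∇ (φ n) x - G x) (volume.restrict Ω) :=
      (continuous_gradient (h1.c1 n).1).aestronglyMeasurable.sub h1.mG.1
    have m2 : AEStronglyMeasurable (fun x => ∇ (ψ n) x - V x) (volume.restrict Ω) :=
      (continuous_gradient (h2.c1 n).1).aestronglyMeasurable.sub h2.mG.1
    have := eLpNorm_sub_le m1 m2 hp'
    refine le_trans (le_of_eq ?_) this
    congr 1
    funext x
    simp only [Pi.sub_apply]
    rw [gradient_sub' (h1.c1 n).1 (h2.c1 n).1]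
    abel

end Helper70.SDim
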