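import Pool.Agent.Helper19.SDim.Spec

/-!
# Basic facts on gradients and approximating sequences
-/

noncomputable section

open MeasureTheory Filter Set Metric
open scoped Topology ENNReal NNReal RealInnerProductSpace ContDiff Gradient

namespace Helper70.SDim

open Helper19.SDim

variable {N : ℕ}

theorem gradient_def' (φ : E N → ℝ) (x : E N) :
    ∇ φ x = (InnerProductSpace.toDual ℝ (E N)).symm (fderiv ℝ φ x) := rfl

theorem continuous_gradient {φ : E N → ℝ} (h : ContDiff ℝ 1 φ) : Continuous (∇ φ) := by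
  have h1 : Continuous (fderiv ℝ φ) := h.continuous_fderiv one_ne_zero
  exact (InnerProductSpace.toDual ℝ (E N)).symm.continuous.comp h1

theorem gradient_sub' {φ ψ : E N → ℝ} (h : ContDiff ℝ 1 φ) (h' : ContDiff ℝ 1 ψ) (x : E N) :
    ∇ (fun x => φ x - ψ x) x = ∇ φ x - ∇ ψ x := by
  have h1 := (h.differentiable one_ne_zero) x
  have h2 := (h'.differentiable one_ne_zero) x
  rw [gradient_def', gradient_def', gradient_def', fderiv_fun_sub h1 h2, map_sub]

theorem gradient_mul' {φ ψ : E N → ℝ} (h : ContDiff ℝ 1 φ) (h' : ContDiff ℝ 1 ψ) (x : E N) :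
    ∇ (fun x => φ x * ψ x) x = ψ x • ∇ φ x + φ x • ∇ ψ x := by
  have h1 := (h.differentiable one_ne_zero) x
  have h2 := (h'.differentiable one_ne_zero) x
  rw [gradient_def', gradient_def', gradient_def', fderiv_fun_mul h1 h2, map_add, map_smulₛₗ,
    map_smulₛₗ, add_comm]
  rfl

theorem gradient_comp' {φ : E N → ℝ} {g : ℝ → ℝ} (h : ContDiff ℝ 1 φ) (hg : ContDiff ℝ 1 g)
    (x : E N) : ∇ (fun x => g (φ x)) x = deriv g (φ x) • ∇ φ x := by
  have h1 := (h.differentiable one_ne_zero) x
  have h2 := (hg.differentiable one_ne_zero) (φ x)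
  have h3 : HasFDerivAt (fun x => g (φ x)) (deriv g (φ x) • fderiv ℝ φ x) x :=
    h2.hasDerivAt.comp_hasFDerivAt x h1.hasFDerivAt
  rw [gradient_def', gradient_def', h3.fderiv, map_smulₛₗ]
  rfl

end Helper70.SDim
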